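import Pool.Agent.Helper44q.Q.Main

/-!
# The Hilbert property of quotients by finite groups and powers of groups as Galois groups

Let `k` be a finitely generated field of characteristic zero, for example a number field, let `V` be a
finite dimensional vector space over `k` and let `G` be a finite group acting faithfully and linearly
on `V`.  The variety `V/G` is unirational, so its smooth projective models are algebraically simply
connected and have dense rational points, and the question Q1 predicts the Hilbert property for them.
It is classical that the Hilbert property of `V/G` implies that `G` is a Galois group over `k` (Emmy
Noether, Serre).  We prove a converse, hence a criterion: `V/G` has the Hilbert property if and only if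
all the powers `G^m` are Galois groups over `k`, if and only if some function field `S` over `k` with
the Hilbert property has a Galois extension with group `G` in which `k` is algebraically closed.
So Q1 for the varieties `V/G` is equivalent to the inverse Galois problem over `k`.

The proof of the converse is by twisting.  Let `E_1, …, E_r` be Galois extensions of `k` with group `G`
which are pairwise linearly disjoint, and let `V_i` be the twist of `V` by `E_i`.  Each `V_i` is
again a vector space and is mapped to `V/G`.  The main step (`Pool.Agent.Helper44q.Q.two_twists`): a
cover of degree `> 1` of `V/G` which is irreducible over `V/G` has a section over at most one of the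
`V_i`.  So for given `r - 1` covers there is an `i` such that none of them has a section over `V_i`,
and the points of `V/G` which come from points of `V_i` are sufficient.  This works for all
actions of `G` on varieties whose twists have the Hilbert property (part 2).
-/

set_option autoImplicit false

namespace Pool.Agent.Helper44q.Old.NoetherQuotients

open Pool.Agent.Helper44q.Q

/-- **The Hilbert property of quotients by finite groups.**  `k` is a finitely generated field of
characteristic zero.
1. Let `G` be a finite group, `ρ` a faithful linear action on the field `K = k(t_1, …, t_n)`, so that
the field `inv ρ` of invariants is the function field of `V/G`.  The following are equivalent: all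
varieties with this function field have the Hilbert property; for all `m`, the group `G^m` is a
Galois group over `k`; for every finite extension `L` of `k` there is a Galois extension `E` of `k`
with group `G` and `E ∩ L = k`; there is a finitely generated extension `S` of `k` such that the
varieties with function field `S` have the Hilbert property and `G` is the group of a Galois
extension of `S` in which `k` is algebraically closed.  In particular they hold if `G` is the group of
a Galois extension of `k(T)` in which `k` is algebraically closed.
2. Let a finite group `G` act on a finitely generated extension `K` of `k` in which `k` is algebraically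
closed.  If for all `r` there are `r` pairwise linearly disjoint Galois extensions of `k` with
group `G` such that the twists have the Hilbert property, then all varieties with function field
`inv ρ` have the Hilbert property.
3. All finite groups are Galois groups over `k` if and only if all the varieties `V/G` have the
Hilbert property. -/
theorem result (k : Type) [Field k] [CharZero k]
    (hk : ∃ S : Finset k, IntermediateField.adjoin ℚ (S : Set k) = ⊤) :
    (∀ (G K : Type) [Group G] [Finite G] [Field K] [Algebra k K] (ρ : G →* (K ≃ₐ[k] K)),
      (IsLinear ρ →
        [HilbertType k (inv ρ),
          ∀ m : ℕ, IsGaloisGroupOver k (Fin m → G),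
          ∀ L : IntermediateField k (AlgebraicClosure k), FiniteDimensional k L →
            ∃ E : IntermediateField k (AlgebraicClosure k), FiniteDimensional k E ∧ IsGalois k E ∧
              Nonempty ((E ≃ₐ[k] E) ≃* G) ∧ E ⊓ L = ⊥,
          ∃ (S : Type) (_ : Field S) (_ : Algebra k S), FinGen k S ∧ HilbertType k S ∧
            OccursOver k S G].TFAE ∧
        (OccursOver k (RatFunc k) G → HilbertType k (inv ρ))) ∧
      (FinGen k K → (∀ a : K, IsAlgebraic k a → a ∈ Set.range (algebraMap k K)) →
        (∀ r : ℕ, ∃ (E : Fin r → IntermediateField k (AlgebraicClosure k))
          (φ : ∀ i, G ≃* (E i ≃ₐ[k] E i)), (∀ i, FiniteDimensional k (E i) ∧ IsGalois k (E i)) ∧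
          (∀ i j, i ≠ j → E i ⊓ E j = ⊥) ∧
          ∀ i, ∃ (T : Type) (_ : Field T) (_ : Algebra k T), IsTwist ρ (φ i) T ∧
            HilbertType k T) →
        HilbertType k (inv ρ))) ∧
    ((∀ (G : Type) [Group G] [Finite G], IsGaloisGroupOver k G) ↔
      ∀ (G K : Type) [Group G] [Finite G] [Field K] [Algebra k K] (ρ : G →* (K ≃ₐ[k] K)),
        IsLinear ρ → HilbertType k (inv ρ)) :=
  ⟨fun _ _ _ _ _ _ ρ => ⟨fun hρ => ⟨tfae hk ρ hρ, regular hk ρ hρ⟩, crit ρ⟩, igp hk⟩

end Pool.Agent.Helper44q.Old.NoetherQuotients
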