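import Pool.Agent.Helper44q.Q.Ext

/-!
# The Hilbert property of `V/G` for large classes of finite groups

Let `k` be a finitely generated field of characteristic zero, for example a number field.  For a finite
group `G` let `NoetherHP k G` be the statement that for all faithful finite dimensional linear
representations `V` of `G` over `k` the varieties which are birational to `V/G` have the Hilbert
property, as predicted by Q1 (their smooth projective models are unirational, hence algebraically
simply connected with dense `k`-points).  By the criterion of the file `HomogeneousSpaces` this
is equivalent to the existence, for every finite extension `L` of `k`, of a Galois extension of `k`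
with group `G` which is linearly disjoint from `L`.

We prove unconditional results: `NoetherHP k G` holds for all groups `G` which can be obtained from the
trivial group by steps in a large class: split extensions with an abelian kernel, wreath
products `G ≀ S_n` of EVERY finite group `G` and large `n` and their twisted forms, arbitrary
(split or not) extensions by the groups of the class `Univ`, and quotients of such groups.  Among
them are all semiabelian groups.  The classes are those of the starting results on the inverse
Galois problem (`Pool.Agent.TH444.TW.ClsDef`, `Pool.Agent.N600.UK.Defs`), where the regular
solutions of the embedding problems are constructed.  Here the solutions are specialised such that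
they become disjoint from a given extension (`Pool.Agent.Helper44q.Q.disj_rel`); for this the regular
solution is considered over the function field of the line together with the given extension.
-/

set_option autoImplicit false

namespace Pool.Agent.Results.MP_87f965_ag.TowersOfGroups

open Pool.Agent.Helper44q.Q
open Pool.Agent.TH444.TW (Cls)
open Pool.Agent.N600.UK (Univ)
open Pool.Agent.H391R2.T4 (RegSol)

/-- **The Hilbert property of `V/G` for large classes of groups.**  Let `k` be a finitely generated
field of characteristic zero.
1. If `p : W' → W` is a homomorphism in the class `Cls k`, `W` is finite, and the varieties `V/W` have
the Hilbert property, then the varieties `V'/W'` have the Hilbert property.  In particular, this holds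
for all groups `G` such that `G → 1` is in `Cls k`.
2. Let `X` be a group with a normal subgroup `N` of finite index which belongs to the class `Univ`.
Then the varieties `V/X` have the Hilbert property if and only if the varieties `V'/(X/N)` have it.
3. More generally the conclusion of 1 holds for every homomorphism `p : W' → W` of finite groups such
that all embedding problems over `k` given by `p` have a regular solution over `k(t)`.
4. If the varieties `V/X` have the Hilbert property then also the varieties `V'/Y` for the quotients `Y`
of `X`. -/
theorem result (k : Type) [Field k] [CharZero k]
    (hk : ∃ S : Finset k, IntermediateField.adjoin ℚ (S : Set k) = ⊤) :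
    ((∀ (W W' : Type) [Group W] [Group W'] [Finite W] (p : W' →* W), Cls k p →
        NoetherHP k W → NoetherHP k W') ∧
      ∀ (G : Type) [Group G], Cls k (1 : G →* Unit) → NoetherHP k G) ∧
    (∀ (T X : Type) [Group T] [Group X] (N : Subgroup X) [N.Normal], Univ T → Nonempty (N ≃* T) →
      Finite (X ⧸ N) → (NoetherHP k X ↔ NoetherHP k (X ⧸ N))) ∧
    (∀ (W W' : Type) [Group W] [Group W'] [Finite W] [Finite W'] (p : W' →* W),
      (∀ (E : Type) [Field E] [Algebra k E] [FiniteDimensional k E] [IsGalois k E]
        (ε : (E ≃ₐ[k] E) ≃* W), RegSol k E W' (ε.symm.toMonoidHom.comp p)) →
      NoetherHP k W → NoetherHP k W') ∧
    ∀ (X Y : Type) [Group X] [Group Y] [Finite X] (f : X →* Y), Function.Surjective f →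
      NoetherHP k X → NoetherHP k Y :=
  ⟨⟨fun _ _ _ _ _ p hp h => noether_cls hk p hp h,
    fun _ _ hG => noether_cls hk _ hG (noether_unit hk)⟩,
    fun _ _ _ _ N _ hT hN hfin => noether_univ hk N hT hN hfin,
    fun _ _ _ _ _ _ p hp h => noether_step hk p hp h,
    fun _ _ _ _ _ f hf h => noether_quot hk f hf h⟩

end Pool.Agent.Results.MP_87f965_ag.TowersOfGroups
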